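import Pool.Agent.Work.MP_4bc1d7_an.Main

set_option autoImplicit false

open Topology

namespace Pool.Agent.Results.MP_4bc1d7_an.AllReducedSpaces

universe v w z

/-- `A` is a closed analytic subset of an open subset `D` of `ℂⁿ`: near every point of `D` it is the set
of the common zeros of finitely many holomorphic functions. -/
def IsAnalyticSet {n : ℕ} (A : Set (Fin n → ℂ)) : Prop :=
  ∃ D : Set (Fin n → ℂ), IsOpen D ∧ A ⊆ D ∧ ∀ p ∈ D, ∃ N : Set (Fin n → ℂ), IsOpen N ∧ p ∈ N ∧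
    N ⊆ D ∧ ∃ (m : ℕ) (h : Fin m → (Fin n → ℂ) → ℂ), (∀ i, DifferentiableOn ℂ (h i) N) ∧
      ∀ q ∈ N, q ∈ A ↔ ∀ i, h i q = 0

/-- A reduced complex analytic space structure on a topological space: an open cover `dom i`, with
homeomorphisms `map i` of `dom i` onto analytic subsets of open subsets of `ℂⁿ`, `n = dim i`; the changes
of charts are locally restrictions of holomorphic maps. -/
structure RedSpace (X : Type v) [TopologicalSpace X] where
  ι : Type z
  dom : ι → Set X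
  isOpen_dom : ∀ i, IsOpen (dom i)
  cover : ∀ x, ∃ i, x ∈ dom i
  dim : ι → ℕ
  map : ∀ i, X → (Fin (dim i) → ℂ)
  emb : ∀ i, IsEmbedding (fun x : dom i => map i x)
  model : ∀ i, IsAnalyticSet (map i '' dom i)
  compat : ∀ i j, ∀ x ∈ dom i ∩ dom j, ∃ N : Set (Fin (dim i) → ℂ), IsOpen N ∧ map i x ∈ N ∧
    ∃ F : (Fin (dim i) → ℂ) → (Fin (dim j) → ℂ), DifferentiableOn ℂ F N ∧
      ∀ y ∈ dom i ∩ dom j, map i y ∈ N → map j y = F (map i y)

/-- `f` is near `x` a section of the sheaf of `F`-valued holomorphic functions: in every chart around `x`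
it is near `x` the restriction of a holomorphic `F`-valued map on an open subset of `ℂⁿ`. -/
def HolAt {X : Type v} [TopologicalSpace X] (A : RedSpace.{v, z} X) {F : Type w}
    [NormedAddCommGroup F] [NormedSpace ℂ F] (f : X → F) (x : X) : Prop :=
  ∀ i, x ∈ A.dom i → ∃ N : Set (Fin (A.dim i) → ℂ), IsOpen N ∧ A.map i x ∈ N ∧
    ∃ G : (Fin (A.dim i) → ℂ) → F, DifferentiableOn ℂ G N ∧
      ∀ y ∈ A.dom i, A.map i y ∈ N → f y = G (A.map i y)

section aux

variable {X : Type v} [TopologicalSpace X] (A : RedSpace.{v, z} X)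

/-- an open subset of `X` inside a chart -/
private theorem exists_nhd (i : A.ι) {V : Set X} (hV : IsOpen V) {x : X} (hx : x ∈ A.dom i)
    (hxV : x ∈ V) : ∃ N : Set (Fin (A.dim i) → ℂ), IsOpen N ∧ A.map i x ∈ N ∧
      ∀ y ∈ A.dom i, A.map i y ∈ N → y ∈ V := by
  have h1 : IsOpen ((↑) ⁻¹' V : Set (A.dom i)) := hV.preimage continuous_subtype_val
  obtain ⟨N, hN, hNe⟩ := ((A.emb i).isInducing.isOpen_iff).1 h1
  refine ⟨N, hN, ?_, ?_⟩
  · have : (⟨x, hx⟩ : A.dom i) ∈ ((↑) ⁻¹' V : Set (A.dom i)) := hxV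
    rw [← hNe] at this
    exact this
  · intro y hy hyN
    have : (⟨y, hy⟩ : A.dom i) ∈ (fun x : A.dom i => A.map i x) ⁻¹' N := hyN
    rw [hNe] at this
    exact this

/-- the inverse image of an open set is open -/
private theorem isOpen_pre (i : A.ι) {N : Set (Fin (A.dim i) → ℂ)} (hN : IsOpen N) :
    IsOpen {y | y ∈ A.dom i ∧ A.map i y ∈ N} := by
  have h1 : IsOpen ((fun x : A.dom i => A.map i x) ⁻¹' N) := hN.preimage (A.emb i).continuous
  have h2 := (A.isOpen_dom i).isOpenMap_subtype_val _ h1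
  convert h2 using 1
  ext y
  simp only [Set.mem_ofPred_eq, Set.mem_image, Set.mem_preimage, Subtype.exists, exists_and_right,
    exists_eq_right]
  exact ⟨fun h => ⟨h.1, h.2⟩, fun ⟨h1, h2⟩ => ⟨h1, h2⟩⟩

/-- a function given in one chart -/
private theorem holAt_of_chart {F : Type w} [NormedAddCommGroup F] [NormedSpace ℂ F] (i : A.ι)
    {N : Set (Fin (A.dim i) → ℂ)} (hN : IsOpen N) {G : (Fin (A.dim i) → ℂ) → F}
    (hG : DifferentiableOn ℂ G N) {x : X} (hx : x ∈ A.dom i) (hxN : A.map i x ∈ N) :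
    HolAt A (fun y => G (A.map i y)) x := by
  intro j hj
  obtain ⟨N1, hN1, hxN1, T, hT, hTe⟩ := A.compat j i x ⟨hj, hx⟩
  obtain ⟨N2, hN2, hxN2, hN2e⟩ := exists_nhd A j (isOpen_pre A i hN) hj ⟨hx, hxN⟩
  refine ⟨N1 ∩ N2 ∩ (N1 ∩ T ⁻¹' N), (hN1.inter hN2).inter (hT.continuousOn.isOpen_inter_preimage hN1 hN),
    ⟨⟨hxN1, hxN2⟩, hxN1, ?_⟩, fun z => G (T z), ?_, ?_⟩
  · show T (A.map j x) ∈ N
    rw [← hTe x ⟨hj, hx⟩ hxN1]
    exact hxN
  · exact hG.comp (hT.mono fun z hz => hz.1.1) fun z hz => hz.2.2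
  · intro y hy hyN
    have h1 := hN2e y hy hyN.1.2
    show G (A.map i y) = G (T (A.map j y))
    rw [hTe y ⟨hy, h1.1⟩ hyN.1.1]

end aux

/-- **Q1, for all reduced complex analytic spaces, with exactness at a single point.** Let `X` be a reduced
complex analytic space, `E j` (`j ∈ ℤ`) Banach spaces and `u j : X → L(E (j+1), E j)` analytic with
`u j x ∘ u (j+1) x = 0` for all `x`. If the complex of Banach spaces is exact at the point `x`, then the
complex of the stalks at `x` is exact. -/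
theorem result (X : Type v) [TopologicalSpace X] (A : RedSpace.{v, z} X) (E : ℤ → Type w)
    [∀ j, NormedAddCommGroup (E j)] [∀ j, NormedSpace ℂ (E j)] [∀ j, CompleteSpace (E j)]
    (u : ∀ j : ℤ, X → (E (j + 1) →L[ℂ] E j)) (hu : ∀ j x, HolAt A (u j) x)
    (hcomp : ∀ j x, (u j x).comp (u (j + 1) x) = 0) (x : X)
    (hex : ∀ j, ∀ e : E (j + 1), u j x e = 0 → ∃ e', u (j + 1) x e' = e)
    (j : ℤ) (V : Set X) (hV : IsOpen V) (hxV : x ∈ V) (f : X → E (j + 1))
    (hf : ∀ y ∈ V, HolAt A f y) (huf : ∀ y ∈ V, u j y (f y) = 0) :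
    ∃ W : Set X, IsOpen W ∧ x ∈ W ∧ ∃ g : X → E (j + 1 + 1), (∀ y ∈ W, HolAt A g y) ∧
      ∀ y ∈ W, u (j + 1) y (g y) = f y := by
  -- closed ranges
  have hclosed : ∀ j, IsClosed (Set.range (u j x)) := by
    intro j
    obtain ⟨i, rfl⟩ : ∃ i, j = i + 1 := ⟨j - 1, by ring⟩
    have : Set.range (u (i + 1) x) = (u i x) ⁻¹' {0} := by
      ext e
      constructor
      · rintro ⟨y, rfl⟩
        exact DFunLike.congr_fun (hcomp i x) y
      · intro he
        exact hex i e he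
    rw [this]
    exact IsClosed.preimage (u i x).continuous isClosed_singleton
  obtain ⟨C1, hC1, hb1⟩ := Pool.Agent.Work.MP_4bc1d7_an.closed_range_bound (u j x) (hclosed j)
  obtain ⟨C2, hC2, hb2⟩ := Pool.Agent.Work.MP_4bc1d7_an.closed_range_bound (u (j + 1) x)
    (hclosed (j + 1))
  -- a chart
  obtain ⟨i, hi⟩ := A.cover x
  set p := A.map i x with hp
  obtain ⟨N0, hN0, hpN0, hN0V⟩ := exists_nhd A i hV hi hxV
  obtain ⟨N1, hN1, hpN1, U, hU, hUe⟩ := hu j x i hi
  obtain ⟨N2, hN2, hpN2, U', hU', hUe'⟩ := hu (j + 1) x i hi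
  obtain ⟨N3, hN3, hpN3, Ff, hFf, hFe⟩ := hf x hxV i hi
  obtain ⟨R, hR, hRs⟩ := Metric.isOpen_iff.mp ((hN0.inter hN1).inter (hN2.inter hN3)) p
    ⟨⟨hpN0, hpN1⟩, hpN2, hpN3⟩
  have hball : ∀ q ∈ Metric.ball (0 : Fin (A.dim i) → ℂ) R,
      p + q ∈ (N0 ∩ N1) ∩ (N2 ∩ N3) := by
    intro q hq
    apply hRs
    rw [Metric.mem_ball, dist_eq_norm] at hq ⊢
    simpa using hq
  have htr : Differentiable ℂ (fun q : Fin (A.dim i) → ℂ => p + q) := by fun_prop
  set S : Set (Fin (A.dim i) → ℂ) := {q | ∃ y ∈ A.dom i, A.map i y = p + q} with hS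
  have hUx : U p = u j x := (hUe x hi hpN1).symm
  have hUx' : U' p = u (j + 1) x := (hUe' x hi hpN2).symm
  obtain ⟨r, hr, g, hg, hwg⟩ := Pool.Agent.Work.MP_4bc1d7_an.local_solve S
    (fun q => U (p + q)) (fun q => U' (p + q)) (fun q => Ff (p + q)) R hR
    (hU.comp htr.differentiableOn fun q hq => (hball q hq).1.2)
    (hU'.comp htr.differentiableOn fun q hq => (hball q hq).2.1)
    (hFf.comp htr.differentiableOn fun q hq => (hball q hq).2.2)
    (fun q hq hqR e => by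
      obtain ⟨y, hy, hye⟩ := hq
      have h := hball q hqR
      rw [← hye] at h ⊢
      rw [← hUe y hy h.1.2, ← hUe' y hy h.2.1]
      exact DFunLike.congr_fun (hcomp j y) e)
    (fun q hq hqR => by
      obtain ⟨y, hy, hye⟩ := hq
      have h := hball q hqR
      rw [← hye] at h ⊢
      rw [← hUe y hy h.1.2, ← hFe y hy h.2.2]
      exact huf y (hN0V y hy h.1.1))
    C1 C2 hC1 hC2
    (fun e => by
      simp only [add_zero]
      rw [hUx]
      exact hb1 e)
    (fun e he => by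
      simp only [add_zero] at he ⊢
      rw [hUx] at he
      rw [hUx']
      obtain ⟨e0, he0⟩ := hex j e he
      obtain ⟨e1, he1, he2⟩ := hb2 e0
      refine ⟨e1, ?_, ?_⟩
      · rw [he1, he0]
      · rw [he0] at he2
        exact he2)
  -- the neighbourhood
  have hO : IsOpen (Metric.ball p r ∩ ((N0 ∩ N1) ∩ (N2 ∩ N3))) :=
    Metric.isOpen_ball.inter ((hN0.inter hN1).inter (hN2.inter hN3))
  have hG : DifferentiableOn ℂ (fun q => g (q - p)) (Metric.ball p r) := by
    refine hg.comp (by fun_prop) ?_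
    intro q hq
    rw [Metric.mem_ball, dist_eq_norm] at hq
    rw [mem_ball_zero_iff]
    exact hq
  refine ⟨{y | y ∈ A.dom i ∧ A.map i y ∈ Metric.ball p r ∩ ((N0 ∩ N1) ∩ (N2 ∩ N3))},
    isOpen_pre A i hO, ⟨hi, Metric.mem_ball_self hr, ⟨hpN0, hpN1⟩, hpN2, hpN3⟩,
    fun y => g (A.map i y - p), ?_, ?_⟩
  · intro y hy
    exact holAt_of_chart A i Metric.isOpen_ball hG hy.1 hy.2.1
  · intro y hy
    have h1 : A.map i y - p ∈ S := ⟨y, hy.1, by abel⟩
    have h2 : A.map i y - p ∈ Metric.ball (0 : Fin (A.dim i) → ℂ) r := by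
      have := hy.2.1
      rw [Metric.mem_ball, dist_eq_norm] at this
      rwa [mem_ball_zero_iff]
    have h3 := hwg _ h1 h2
    have h4 : p + (A.map i y - p) = A.map i y := by abel
    rw [h4, ← hUe' y hy.1 hy.2.2.2.1, ← hFe y hy.1 hy.2.2.2.2] at h3
    exact h3

end Pool.Agent.Results.MP_4bc1d7_an.AllReducedSpaces
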